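import Pool.Agent.H73.PHS.Stmts

set_option autoImplicit false
open Set Filter Topology MeasureTheory Metric
open scoped Manifold
namespace Pool.PHS

theorem CUT_thm : CUTStmt := by
  intro n Ω L hΩ hL hLΩ
  obtain ⟨K, hK, hLK, hKΩ⟩ := exists_compact_between hL hΩ hLΩ
  obtain ⟨M, hM, hLM, hMK⟩ := exists_compact_between hL isOpen_interior hLK
  have hd : Disjoint (interior K)ᶜ M := by
    rw [disjoint_compl_left_iff_subset]; exact hMK
  obtain ⟨f, hf0, hf1, hf⟩ := exists_contMDiffMap_zero_one_of_isClosed (n := 3) (I := 𝓘(ℝ, Cn n)) (isOpen_interior.isClosed_compl) hM.isClosed hd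
  have hsupp : Function.support f ⊆ interior K := by
    intro x hx
    by_contra h
    exact hx (hf0 h)
  have hts : tsupport f ⊆ K := closure_minimal (hsupp.trans interior_subset) hK.isClosed
  refine ⟨f, interior M, f.contMDiff.contDiff, HasCompactSupport.of_support_subset_isCompact hK (hsupp.trans interior_subset), hts.trans hKΩ, isOpen_interior, hLM, (interior_subset.trans (hMK.trans interior_subset)).trans hKΩ, ?_⟩
  intro z hz
  exact hf1 (interior_subset hz)

end Pool.PHS
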