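import Pool.Agent.H73.PHS.Stmts

set_option autoImplicit false
open Set Filter Topology MeasureTheory Metric
namespace Pool.PHS

theorem EXF_thm (hEXT : EXTStmt) (hIDN : IDNStmt) (hHFC : HFCStmt) : EXFStmt := by
  intro n hn D E K f hH hf
  obtain ⟨hΩo, hΩb, hΩc, hΩE, hEu, hEne, hnear⟩ := hHFC n (by omega) D E K hH
  have hDK : (D ∪ K) \ K = D := by
    have : Disjoint D K := by
      rw [Set.disjoint_left]
      intro x hxD hxK
      have : x ∈ Dᶜ := by rw [hH.compl]; exact Or.inr hxK
      exact this hxD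
    rw [Set.union_sdiff_right]
    exact this.sdiff_eq_left
  have key : ∀ i : Fin n, ∃ F : Cn n → ℂ, DifferentiableOn ℂ F (D ∪ K) ∧ EqOn F (fun z => f z i) D := by
    intro i
    have hg : DifferentiableOn ℂ (fun z => f z i) ((D ∪ K) \ K) := by
      rw [hDK]
      exact (differentiableOn_pi.1 hf) i
    obtain ⟨F, ε, hε, hF, hFg⟩ := hEXT n hn (D ∪ K) K (fun z => f z i) hΩo hΩb
      (by rw [hΩE]; exact hH.conn_E) hH.comp_K subset_union_right hg
    refine ⟨F, hF, ?_⟩
    obtain ⟨w, hwD, hw⟩ := hnear ε hε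
    refine hIDN n F (fun z => f z i) D {z | z ∈ D ∧ infDist z E < ε} hH.open_D hH.conn_D.isPreconnected
      (hF.mono subset_union_left) ((differentiableOn_pi.1 hf) i) ?_ (fun z hz => hz.1) ⟨w, hwD, hw⟩ ?_
    · exact hH.open_D.inter (isOpen_lt (continuous_infDist_pt E) continuous_const)
    · intro z hz
      exact (hFg z (Or.inl hz.1) (by rw [hΩE]; exact hz.2)).2
  choose F hF1 hF2 using key
  refine ⟨fun z i => F i z, differentiableOn_pi.2 hF1, ?_⟩
  intro z hz
  funext i
  exact hF2 i hz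

end Pool.PHS
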