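import Pool.Agent.H46.PHS.CBC
import Pool.Agent.H91.PHS.LCB
import Pool.Agent.H86.PHS.IT1
import Pool.Agent.H52.PHS.SMT
import Pool.Agent.H16.PHS.DVD
import Pool.Agent.H1.PHS.HFC
import Pool.Agent.H21.PHS.PIO
import Pool.Agent.H62.PHS.CRM
import Pool.Agent.H66.PHS.DIV
import Pool.Agent.H44.PHS.HDZ
import Pool.Agent.H65.PHS.HOM
import Pool.Agent.H80.PHS.JAC
import Pool.Agent.H70.PHS.SMO
import Pool.Agent.H67.PHS.DEG
import Pool.Agent.H14.PHS.DET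
import Pool.Agent.H78.PHS.POS
import Pool.Agent.H33.PHS.BMP
import Pool.Agent.H54.PHS.OPN
import Pool.Agent.H22.PHS.IDN
import Pool.Agent.H63.PHS.NDG
import Pool.Agent.H81.PHS.NDE
import Pool.Agent.H1.PHS.RNG
import Pool.Agent.H36.PHS.CRH
import Pool.Agent.H48.PHS.ALF
import Pool.Agent.H23.PHS.LIM
import Pool.Agent.H86.PHS.PMP
import Pool.Agent.H73.PHS.Cut
import Pool.Agent.H3.PHS.DUI
import Pool.Agent.H53.PHS.DBR
import Pool.Agent.H83.PHS.THK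
import Pool.Agent.H27.PHS.EXT
import Pool.Agent.H38.PHS.CLM
import Pool.Agent.H71.PHS.PRP
import Pool.Agent.H3.PHS.SRJ
import Pool.Agent.H55.PHS.ITR
import Pool.Agent.H73.PHS.Exf
import Pool.Agent.H97.PHS.MAI

/-!
# Board PHS: assembly
-/

set_option autoImplicit false

open Set Filter Topology MeasureTheory Metric

namespace Pool.PHS

theorem f_CBC : CBCStmt := cbc_thm
theorem f_LCB : LCBStmt := LCB_thm
theorem f_IPB : IPBStmt := IPB_thm
theorem f_SMT : SMTStmt := SMT_thm f_CBC f_LCB f_IPB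
theorem f_DVD : DVDStmt := DVD_thm
theorem f_HFC : HFCStmt := hfc_thm
theorem f_PIO : PIOStmt := PIO_thm
theorem f_CRM : CRMStmt := CRM_thm
theorem f_DIV : DIVStmt := DIV_thm
theorem f_HDZ : HDZStmt := HDZ_thm f_PIO f_CRM f_DIV
theorem f_HOM : HOMStmt := HOM_thm f_DVD f_HDZ
theorem f_JAC : JACStmt := JAC_thm
theorem f_SMO : SMOStmt := SMO_thm
theorem f_DEG : DEGStmt := DEG_thm f_HOM f_JAC f_SMO
theorem f_DET : DETStmt := det_thm f_SMO
theorem f_POS : POSStmt := POS_thm f_DET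
theorem f_BMP : BMPStmt := BMP_thm
theorem f_OPN : OPNStmt := OPN_thm f_DEG f_POS f_BMP
theorem f_IDN : IDNStmt := IDN_thm
theorem f_NDG : NDGStmt := NDG_thm f_DET f_IDN f_DEG f_POS f_BMP
theorem f_NDE : NDEStmt := NDE_thm f_DET f_IDN f_HFC f_NDG
theorem f_RNG : RNGStmt := rng_thm f_OPN f_HFC f_NDE
theorem f_CRH : CRHStmt := CRH_thm
theorem f_ALF : ALFStmt := ALF_thm f_SMO f_CRH
theorem f_LIM : LIMStmt := LIM_thm
theorem f_IT1 : IT1Stmt := IT1_thm f_LIM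
theorem f_PMP : PMPStmt := PMP_thm
theorem f_CUT : CUTStmt := CUT_thm
theorem f_DUI : DUIStmt := DUI_thm
theorem f_DBR : DBRStmt := DBR_thm f_PMP f_DUI
theorem f_THK : THKStmt := THK_thm
theorem f_EXT : EXTStmt := EXT_thm f_CUT f_ALF f_DBR f_CRH f_THK f_IDN
theorem f_CLM : CLMStmt := CLM_thm f_EXT f_IDN
theorem f_PRP : PRPStmt := PRP_thm f_CLM f_HFC
theorem f_SRJ : SRJStmt := SRJ_thm f_OPN f_NDG
theorem f_ITR : ITRStmt := ITR_thm f_LIM f_IT1 f_IDN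
theorem f_EXF : EXFStmt := EXF_thm f_EXT f_IDN f_HFC
theorem f_MAI : MAIStmt := MAI_thm f_EXF f_RNG f_NDE f_SRJ f_PRP f_OPN f_HFC f_ITR

end Pool.PHS
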