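import Mathlib

/-!
# Board PHS: proper holomorphic self-maps of bounded domains with a hole (MP_e1af46)

THEOREM.  Let n ≥ 2 and let D be a bounded connected open subset of ℂⁿ whose complement is the
disjoint union of a closed connected set E and a compact set K with nonempty interior.  Then every
proper holomorphic map f : D → D is biholomorphic.

PROOF.  Ω = D ∪ K = Eᶜ is open.  (EXF, Hartogs) f extends to F : Ω → ℂⁿ.  (OPN) Degree argument: the
integral of ψ(F - w)|det F'|² does not change under homotopies, so for a preconnected set S such that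
the sets {z ∈ U : |F z - w| ≤ ρ(w)} are compact for w in S, either S ⊆ F(U) or S ∩ F(U) = ∅.  With
S = E, U = a neighbourhood of K: F(Ω) misses the unbounded set E, so F : Ω → Ω.  With S = D, U = D:
f(D) = D.  (CLM) near E the values F z are either all near E or all near K (Hartogs for the locally
constant function); near K is impossible since f(D) = D; so F : Ω → Ω is proper and F(Ω) = Ω (OPN
with S = U = Ω).  Since F(D) ⊆ D, we have F⁻¹(K) ⊆ K, so K ⊆ Fᵏ(K) for all k.  (ITR) Let G be a limit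
of Fᵏ: K ⊆ G(K), so the limits of F^(k'-k) are the identity on K, hence on Ω, and the limits of
F^(k'-k-1) give the inverse map.

`Cn n` is `Fin n → ℂ` with the maximum norm, as in the frozen statement S06457.
-/

set_option autoImplicit false

open Set Filter Topology MeasureTheory Metric

namespace Pool.PHS

/-- `ℂⁿ` -/
abbrev Cn (n : ℕ) : Type := Fin n → ℂ

/-- the complex Jacobian determinant -/
noncomputable def jac {n : ℕ} (F : Cn n → Cn n) (z : Cn n) : ℂ := (fderiv ℂ F z).det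

/-- `∂/∂x_j + i ∂/∂y_j` -/
noncomputable def dbar {n : ℕ} (j : Fin n) (u : Cn n → ℂ) (z : Cn n) : ℂ :=
  fderiv ℝ u z (Pi.single j 1) + Complex.I * fderiv ℝ u z (Pi.single j Complex.I)

/-- `f` is a proper holomorphic map of `D` to itself -/
structure ProperSelf {n : ℕ} (D : Set (Cn n)) (f : Cn n → Cn n) : Prop where
  maps : MapsTo f D D
  hol : DifferentiableOn ℂ f D
  proper : ∀ K : Set (Cn n), K ⊆ D → IsCompact K → IsCompact (D ∩ f ⁻¹' K)

/-- `D` is a bounded domain whose complement is the disjoint union of the connected closed set `E`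
and of the compact set `K`, with nonempty interior -/
structure Hole {n : ℕ} (D E K : Set (Cn n)) : Prop where
  open_D : IsOpen D
  conn_D : IsConnected D
  bdd_D : Bornology.IsBounded D
  closed_E : IsClosed E
  conn_E : IsPreconnected E
  comp_K : IsCompact K
  int_K : (interior K).Nonempty
  disj : Disjoint E K
  compl : Dᶜ = E ∪ K

/-- the Jacobian determinant of `F` vanishes on no nonempty open subset of `U` -/
def NonDeg {n : ℕ} (F : Cn n → Cn n) (U : Set (Cn n)) : Prop :=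
  ∀ O : Set (Cn n), IsOpen O → O ⊆ U → O.Nonempty → ∃ z ∈ O, jac F z ≠ 0

/-! ## Part 1: holomorphic functions of several variables -/

/-- SMO: holomorphic functions are twice continuously differentiable.  Proof: `osg_fderiv_apply` of
`Pool/Agent/H79/TC/Osg.lean` (general `E`, `F`; import it or copy the general section) gives that
`z ↦ fderiv ℂ f z v` is holomorphic; apply it to the basis vectors, so `fderiv ℂ f` is holomorphic,
in particular continuous; the same for `fderiv ℂ f` in place of `f`; then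
`contDiffOn_succ_iff_fderiv_of_isOpen` twice.  The real statement by `ContDiffOn.restrict_scalars`. -/
def SMOStmt : Prop :=
  ∀ (n : ℕ) (F : Type) [NormedAddCommGroup F] [NormedSpace ℂ F] [CompleteSpace F]
    (f : Cn n → F) (U : Set (Cn n)), IsOpen U → DifferentiableOn ℂ f U →
    DifferentiableOn ℂ (fderiv ℂ f) U ∧ ContDiffOn ℂ 2 f U ∧ ContDiffOn ℝ 2 f U

/-- DET: the Jacobian determinant is holomorphic.  Proof: `fderiv ℂ f` is holomorphic (SMO) and the
determinant is a polynomial in the entries (write it as the determinant of the matrix in the basis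
`Pi.basisFun ℂ (Fin n)`, `Matrix.det_apply`). -/
def DETStmt : Prop :=
  ∀ (n : ℕ) (F : Cn n → Cn n) (U : Set (Cn n)), IsOpen U → DifferentiableOn ℂ F U →
    DifferentiableOn ℂ (jac F) U

/-- IDN: identity theorem.  Proof: let `A` be the set of points of `U` near which `f = g`; it is open
and not empty.  It is closed in `U`: if `p ∈ U` is in its closure take a ball `B(p, r) ⊆ U`, a point
`q ∈ A ∩ B(p, r)`; for `z ∈ B(p, r)` the set of `t ∈ ℂ` with `q + t (z - q) ∈ B(p, r)` is open and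
convex and contains `0`, `1`; the one variable identity theorem
(`AnalyticOnNhd.eqOn_of_preconnected_of_eventuallyEq`, `DifferentiableOn.analyticOnNhd`) gives
`f z = g z`.  (Similar: `idt` in Pool/Agent, project TC.) -/
def IDNStmt : Prop :=
  ∀ (n : ℕ) (f g : Cn n → ℂ) (U W : Set (Cn n)), IsOpen U → IsPreconnected U →
    DifferentiableOn ℂ f U → DifferentiableOn ℂ g U → IsOpen W → W ⊆ U → W.Nonempty →
    EqOn f g W → EqOn f g U

/-- LIM: a bounded sequence of holomorphic maps which converges pointwise along a filter converges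
locally uniformly, and the limit is holomorphic.  Proof: on a ball `B(a, r) ⊆ U` all `f k` are
`2 M / (r / 2)`-Lipschitz on `B(a, r / 2)` (`osg_norm_fderiv_le` of Pool/Agent/H79/TC/Osg.lean, mean
value); `mon_aux1` of Pool/Agent/H4/TC/Mon.lean (copy it) gives uniform convergence on compact sets;
then `osg_limit` of the first file. -/
def LIMStmt : Prop :=
  ∀ (n : ℕ) (U : Set (Cn n)) (l : Filter ℕ) (f : ℕ → Cn n → Cn n) (g : Cn n → Cn n) (M : ℝ),
    l.NeBot → IsOpen U → (∀ k, DifferentiableOn ℂ (f k) U) → (∀ k, ∀ z ∈ U, ‖f k z‖ ≤ M) →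
    (∀ z ∈ U, Tendsto (fun k => f k z) l (𝓝 (g z))) →
    DifferentiableOn ℂ g U ∧ TendstoLocallyUniformlyOn f g l U

/-- CRH: Cauchy-Riemann equations.  Proof: `→`: `fderiv ℝ F z` is the restriction of `fderiv ℂ F z`
and `Pi.single k I = I • Pi.single k 1`.  `←`: the real derivative `T` satisfies
`T (I • Pi.single k 1) = I * T (Pi.single k 1)` (from `dbar k F z = 0`), so `T (I • v) = I * T v` for
all `v` (write `v = ∑ k, (a_k + b_k I) • Pi.single k 1`), so `T` is complex linear; conclude by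
`hasFDerivAt_of_restrictScalars`. -/
def CRHStmt : Prop :=
  ∀ (n : ℕ) (F : Cn n → ℂ) (z : Cn n),
    DifferentiableAt ℂ F z ↔ DifferentiableAt ℝ F z ∧ ∀ k, dbar k F z = 0

/-! ## Part 2: the degree argument -/

/-- PIO: Piola's identity.  `C_j(y)` is the determinant of the derivatives of `G` in the basis
directions with the `j`-th one replaced by `H y`; then `∑ j, ∂_j C_j` is the sum of the determinants
with the `j`-th entry replaced by `∂_j H`.  Proof: `b.det` is a continuous multilinear map in finite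
dimension; the derivative of `C_j` in direction `b j` is the sum of `det (.. j ↦ ∂_j H ..)` and of the
`det (.. j ↦ H, i ↦ ∂_j ∂_i G ..)` over `i ≠ j`; the double sum over `i ≠ j` vanishes, since the
second derivative is symmetric (`ContDiffAt.isSymmSndFDerivAt`) and `b.det` changes sign when the
entries `i` and `j` are exchanged (`AlternatingMap.map_swap`). -/
def PIOStmt : Prop :=
  ∀ (E : Type) [NormedAddCommGroup E] [NormedSpace ℝ E] [FiniteDimensional ℝ E] (ι : Type)
    [Fintype ι] [DecidableEq ι] (b : Module.Basis ι ℝ E) (G H : E → E) (U : Set E),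
    IsOpen U → ContDiffOn ℝ 2 G U → ContDiffOn ℝ 1 H U → ∀ z ∈ U,
    ∑ j, fderiv ℝ (fun y => b.det (Function.update (fun i => fderiv ℝ G y (b i)) j (H y))) z (b j) =
      ∑ j, b.det (Function.update (fun i => fderiv ℝ G z (b i)) j (fderiv ℝ H z (b j)))

/-- CRM: Cramer's rule.  Proof: `Matrix.mulVec_cramer` in the basis `b`, or: both sides are
multilinear alternating in `v`. -/
def CRMStmt : Prop :=
  ∀ (E : Type) [AddCommGroup E] [Module ℝ E] (ι : Type) [Fintype ι] [DecidableEq ι]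
    (b : Module.Basis ι ℝ E) (v : ι → E) (h : E),
    ∑ j, b.det (Function.update v j h) • v j = b.det v • h

/-- DVD: the derivative of the determinant and of `ψ (G + t H)`.  Write
`W t z = ψ (G z + t H z) * det (v_i + t w_i)` with `v i`, `w i` vectors.  Proof: chain rule and the
derivative of a multilinear map (`ContinuousMultilinearMap`; finite dimension). -/
def DVDStmt : Prop :=
  ∀ (E : Type) [NormedAddCommGroup E] [NormedSpace ℝ E] [FiniteDimensional ℝ E] (ι : Type)
    [Fintype ι] [DecidableEq ι] (b : Module.Basis ι ℝ E) (ψ : E → ℝ) (p q : E) (v w : ι → E) (t : ℝ),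
    ContDiff ℝ 1 ψ →
    HasDerivAt (fun s : ℝ => ψ (p + s • q) * b.det (fun i => v i + s • w i))
      (fderiv ℝ ψ (p + t • q) q * b.det (fun i => v i + t • w i) +
        ψ (p + t • q) * ∑ j, b.det (Function.update (fun i => v i + t • w i) j (w j))) t

/-- DIV: the integral of a derivative of a function with compact support is zero.  Proof: Mathlib,
`Mathlib/Analysis/Calculus/LineDeriv/IntegrationByParts.lean` (integration by parts against a
constant or a bump function). -/
def DIVStmt : Prop :=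
  ∀ (E : Type) [NormedAddCommGroup E] [NormedSpace ℝ E] [FiniteDimensional ℝ E]
    [MeasurableSpace E] [BorelSpace E] (μ : Measure E) [μ.IsAddHaarMeasure] (f : E → ℝ) (v : E),
    ContDiff ℝ 1 f → HasCompactSupport f → ∫ x, fderiv ℝ f x v ∂μ = 0

/-- HDZ: the derivative of the degree integral is zero.  Proof: let `X_j y = ψ (G y) * C_j y` on `U`,
`C_j` as in PIO, and `X_j = 0` off `U`.  Since `X_j = 0` on `U \ Q` and `Q` is compact, `X_j` is `C¹`
on `E` with compact support, so `∫ fderiv X_j (b j) = 0` (DIV).  On `U` the sum over `j` of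
`fderiv X_j z (b j)` is `∑ j, fderiv ψ (G z) (∂_j G z) * C_j z + ψ (G z) * ∑ j, ∂_j C_j z`, by CRM the
first sum is `fderiv ψ (G z) (H z) * det`, by PIO the second one is the second term below.  (Off `Q`
everything is zero: `ψ ∘ G` vanishes near every point of `U \ Q`.)  Needs PIO CRM DIV. -/
def HDZStmt : Prop :=
  ∀ (E : Type) [NormedAddCommGroup E] [NormedSpace ℝ E] [FiniteDimensional ℝ E]
    [MeasurableSpace E] [BorelSpace E] (μ : Measure E) [μ.IsAddHaarMeasure] (ι : Type)
    [Fintype ι] [DecidableEq ι] (b : Module.Basis ι ℝ E) (G H : E → E) (ψ : E → ℝ) (U Q : Set E),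
    IsOpen U → ContDiffOn ℝ 2 G U → ContDiffOn ℝ 2 H U → ContDiff ℝ 1 ψ → (∀ x, 0 ≤ ψ x) →
    IsCompact Q → Q ⊆ U → (∀ z ∈ U, ψ (G z) ≠ 0 → z ∈ Q) →
    ∫ z in U, (fderiv ℝ ψ (G z) (H z) * b.det (fun i => fderiv ℝ G z (b i)) +
      ψ (G z) * ∑ j, b.det (Function.update (fun i => fderiv ℝ G z (b i)) j
        (fderiv ℝ H z (b j)))) ∂μ = 0

/-- HOM: homotopy invariance of the degree integral.  Proof: with a basis `b`
(`Module.finBasis ℝ E`), `(fderiv ℝ G z).det = b.det (fun i => fderiv ℝ G z (b i))`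
(`LinearMap.det_toLin`, `Basis.det_comp_basis` or similar).  Let
`W t z = ψ (G z + t • H z) * b.det (fun i => fderiv ℝ G z (b i) + t • fderiv ℝ H z (b i))` for `z ∈ U`;
it vanishes for `z ∈ U \ Q`, `t ∈ [0,1]`, and so does its `t`-derivative (DVD; since `ψ ≥ 0` the
derivative of `ψ` vanishes where `ψ = 0`), which is continuous on `[0,1] × Q`, so bounded.
Differentiate under the integral (`hasDerivAt_integral_of_dominated_loc_of_deriv_le`, on the open
interval); the derivative is zero by HDZ applied to `G + t • H`; the integral is continuous on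
`[0,1]`, so it is constant.  Needs DVD HDZ. -/
def HOMStmt : Prop :=
  ∀ (E : Type) [NormedAddCommGroup E] [NormedSpace ℝ E] [FiniteDimensional ℝ E]
    [MeasurableSpace E] [BorelSpace E] (μ : Measure E) [μ.IsAddHaarMeasure]
    (G H : E → E) (ψ : E → ℝ) (U Q : Set E),
    IsOpen U → ContDiffOn ℝ 2 G U → ContDiffOn ℝ 2 H U → ContDiff ℝ 1 ψ → (∀ x, 0 ≤ ψ x) →
    IsCompact Q → Q ⊆ U → (∀ t ∈ Icc (0 : ℝ) 1, ∀ z ∈ U, ψ (G z + t • H z) ≠ 0 → z ∈ Q) →
    ∫ z in U, ψ (G z) * (fderiv ℝ G z).det ∂μ =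
      ∫ z in U, ψ (G z + H z) * (fderiv ℝ (fun y => G y + H y) z).det ∂μ

/-- JAC: the real determinant of a complex linear map.  Proof: `LinearMap.det_restrictScalars`,
`Algebra.norm_complex_apply`. -/
def JACStmt : Prop :=
  ∀ (n : ℕ) (L : Cn n →L[ℂ] Cn n), (L.restrictScalars ℝ).det = Complex.normSq L.det

/-- DEG: HOM for holomorphic maps.  Proof: HOM with `E = Cn n`, `μ = volume`, real derivatives are the
restrictions of the complex ones (`DifferentiableAt.fderiv_restrictScalars`), JAC, SMO. -/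
def DEGStmt : Prop :=
  ∀ (n : ℕ) (F H : Cn n → Cn n) (ψ : Cn n → ℝ) (U Q : Set (Cn n)), IsOpen U →
    DifferentiableOn ℂ F U → DifferentiableOn ℂ H U → ContDiff ℝ 1 ψ → (∀ x, 0 ≤ ψ x) →
    IsCompact Q → Q ⊆ U → (∀ t ∈ Icc (0 : ℝ) 1, ∀ z ∈ U, ψ (F z + t • H z) ≠ 0 → z ∈ Q) →
    ∫ z in U, ψ (F z) * Complex.normSq (jac F z) =
      ∫ z in U, ψ (F z + H z) * Complex.normSq (jac (fun y => F y + H y) z)

/-- POS: positivity.  Proof: the integrand is nonnegative, continuous on `U` (DET) and vanishes off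
the compact set `Q`, so integrable on `U`; near `z₀` we have `ψ (F z) > 0`, and `jac F ≠ 0` at some
point of every neighbourhood, so the integrand is positive on a nonempty open set
(`integral_pos_iff_support_of_nonneg`). -/
def POSStmt : Prop :=
  ∀ (n : ℕ) (F : Cn n → Cn n) (ψ : Cn n → ℝ) (U Q : Set (Cn n)), IsOpen U →
    DifferentiableOn ℂ F U → ContDiff ℝ 1 ψ → (∀ x, 0 ≤ ψ x) → IsCompact Q → Q ⊆ U →
    (∀ z ∈ U, ψ (F z) ≠ 0 → z ∈ Q) → ∀ z₀ ∈ U, 0 < ψ (F z₀) →
    (∀ O : Set (Cn n), IsOpen O → z₀ ∈ O → O ⊆ U → ∃ z ∈ O, jac F z ≠ 0) →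
    0 < ∫ z in U, ψ (F z) * Complex.normSq (jac F z)

/-- BMP: bump functions.  Proof: `ContDiffBump` with centre `w`, radii `r / 2` and `r`. -/
def BMPStmt : Prop :=
  ∀ (n : ℕ) (w : Cn n) (r : ℝ), 0 < r → ∃ ψ : Cn n → ℝ, ContDiff ℝ 1 ψ ∧ (∀ x, 0 ≤ ψ x) ∧
    (∀ x, ‖x - w‖ < r → 0 < ψ x) ∧ ∀ x, r ≤ ‖x - w‖ → ψ x = 0

/-- NDG: a proper holomorphic self-map is not degenerate.  Proof: if `jac f` vanishes on a nonempty
open subset of `D` it vanishes on `D` (DET, IDN).  Let `z₀ ∈ D`, `w = f z₀`, `closedBall w (2 r) ⊆ D`,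
`Q = D ∩ f ⁻¹' closedBall w (2 r)` compact, `Q' ⊆ D` a compact neighbourhood of `Q`
(`exists_compact_between`), `U = interior Q'`, `‖z‖ ≤ M` on `Q'`.  Let `t₀ > 0` with
`t₀ * M < r`, `t₀ * ‖z₀‖ < r` and `det (f' z₀ + t₀) ≠ 0` (the characteristic polynomial has finitely
many roots).  DEG on `U` with `F = f`, `H z = t₀ • z`, `ψ` the bump function of radius `r` at `w`: if
`ψ (f z + t • t₀ • z) ≠ 0` then `‖f z - w‖ < 2 r`, so `z ∈ Q`.  The left side is `0`; the right side
is positive (POS with the map `z ↦ f z + t₀ • z`: at `z₀` the value is within `r` of `w`, and its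
Jacobian determinant is not zero at `z₀`).  Needs DET IDN DEG POS BMP. -/
def NDGStmt : Prop :=
  ∀ (n : ℕ) (D : Set (Cn n)) (f : Cn n → Cn n), IsOpen D → IsConnected D → ProperSelf D f →
    NonDeg f D

/-- OPN: open-closed principle.  Proof: `T = S ∩ F '' U` is nonempty; it is closed in `S`: if
`F z_k → w ∈ S` then `z_k` stays in the compact set of `w`, a subsequence converges to `z` with
`F z = w`.  It is open in `S`: let `w ∈ T`, `P = {z ∈ U | ‖F z - w‖ ≤ ρ}` compact, `w' ∈ S`,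
`‖w' - w‖ < ρ / 3`.  For `0 < s < ρ / 3` apply DEG with `F z - w` in place of `F`, `H = w - w'`
(constant), `ψ` the bump function of radius `s` at `0` (`ψ (F z - w + t (w - w')) ≠ 0` gives
`‖F z - w‖ < 2 ρ / 3`, so `z ∈ P`).  The left side is positive (POS), so the right side is, so there
is `z_s ∈ P` with `‖F z_s - w'‖ < s`; let `s → 0`.  Conclude by `IsPreconnected.subset_of_...` (for
instance `isPreconnected_iff_subset_of_disjoint_closed` or via the subtype).  (jac (F - w) = jac F.)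
Needs DEG POS BMP. -/
def OPNStmt : Prop :=
  ∀ (n : ℕ) (U S : Set (Cn n)) (F : Cn n → Cn n), IsOpen U → DifferentiableOn ℂ F U →
    NonDeg F U → IsPreconnected S →
    (∀ w ∈ S, ∃ ρ > 0, IsCompact {z | z ∈ U ∧ ‖F z - w‖ ≤ ρ}) →
    (S ∩ F '' U).Nonempty → S ⊆ F '' U

/-! ## Part 3: the theorem of Hartogs -/

/-- PMP: the formula of Cauchy-Pompeiu.  Proof: `pompeiu0` of Pool/Agent/H88/RSE/Pomp.lean for the
real and imaginary parts of `ζ ↦ g (z + ζ)`. -/
def PMPStmt : Prop :=
  ∀ g : ℂ → ℂ, ContDiff ℝ 1 g → HasCompactSupport g → ∀ z : ℂ,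
    ∫ ζ : ℂ, (fderiv ℝ g (z + ζ) 1 + Complex.I * fderiv ℝ g (z + ζ) Complex.I) / ζ =
      -(2 * Real.pi : ℝ) * g z

/-- DUI: differentiation under the integral sign.  Proof: `ζ ↦ 1 / ζ` is locally integrable on `ℂ`
(polar coordinates), `a` and its derivative are bounded with compact support:
`hasFDerivAt_integral_of_dominated_of_fderiv_le` with the bound `C / |ζ|` on a disc, and continuity of
the derivative by dominated convergence (`continuous_of_dominated`); or
`hasFDerivAt_convolution_right_with_param`. -/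
def DUIStmt : Prop :=
  ∀ (n : ℕ) (i : Fin n) (a : Cn n → ℂ), ContDiff ℝ 1 a → HasCompactSupport a →
    ContDiff ℝ 1 (fun z : Cn n => ∫ ζ : ℂ, a (z + Pi.single i ζ : Cn n) / ζ) ∧
    ∀ z v : Cn n, fderiv ℝ (fun z : Cn n => ∫ ζ : ℂ, a (z + Pi.single i ζ : Cn n) / ζ) z v =
      ∫ ζ : ℂ, fderiv ℝ a (z + Pi.single i ζ : Cn n) v / ζ

/-- DBR: the equation `dbar u = α` with compact support.  Proof: `u z = -(1/2π) ∫ α_i (z + ζ e_i)/ζ`.
By DUI `dbar k u z = -(1/2π) ∫ (dbar k α_i)(z + ζ e_i) / ζ = -(1/2π) ∫ (dbar i α_k)(z + ζ e_i) / ζ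
= α_k z` by PMP for `ζ ↦ α_k (z with i-th coordinate ζ)`.  If `‖z j‖` is large, `α_i (z + ζ e_i) = 0`
for all `ζ`, as `j ≠ i`.  Needs PMP DUI. -/
def DBRStmt : Prop :=
  ∀ (n : ℕ) (i j : Fin n), i ≠ j → ∀ α : Fin n → Cn n → ℂ, (∀ k, ContDiff ℝ 1 (α k)) →
    (∀ k, HasCompactSupport (α k)) → (∀ k l z, dbar k (α l) z = dbar l (α k) z) →
    ∃ u : Cn n → ℂ, ContDiff ℝ 1 u ∧ (∀ k z, dbar k u z = α k z) ∧
      ∃ R : ℝ, ∀ z, R < ‖z j‖ → u z = 0

/-- CUT: smooth cutoff functions.  Proof: `exists_contMDiff_...`/`exists_smooth_zero_one_of_isClosed`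
for the closed sets `closure of the complement of a compact neighbourhood` and a smaller compact
neighbourhood of `L`; `exists_compact_between`. -/
def CUTStmt : Prop :=
  ∀ (n : ℕ) (Ω L : Set (Cn n)), IsOpen Ω → IsCompact L → L ⊆ Ω →
    ∃ (χ : Cn n → ℝ) (N : Set (Cn n)), ContDiff ℝ 3 χ ∧ HasCompactSupport χ ∧ tsupport χ ⊆ Ω ∧
      IsOpen N ∧ L ⊆ N ∧ N ⊆ Ω ∧ ∀ z ∈ N, χ z = 1

/-- ALF: the form `α = dbar ((1 - χ) g)`.  `h = (1 - χ) g` on `Ω \ L`, `0` elsewhere;
`α k = - g * dbar k χ` on `Ω \ L`, `0` elsewhere.  Proof: `g` is `C²` on `Ω \ L` (SMO) with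
`dbar k g = 0` (CRH); `dbar k χ` vanishes on `N` and off `tsupport χ`, so `α k` is `C¹` everywhere;
`dbar k (α l) = - g * dbar k (dbar l χ)` is symmetric in `k`, `l`.  Needs SMO CRH. -/
def ALFStmt : Prop :=
  ∀ (n : ℕ) (Ω L N : Set (Cn n)) (g : Cn n → ℂ) (χ : Cn n → ℝ), IsOpen Ω → IsCompact L →
    L ⊆ N → IsOpen N → N ⊆ Ω → DifferentiableOn ℂ g (Ω \ L) → ContDiff ℝ 3 χ →
    HasCompactSupport χ → tsupport χ ⊆ Ω → (∀ z ∈ N, χ z = 1) →
    ∃ (h : Cn n → ℂ) (α : Fin n → Cn n → ℂ), (∀ k, ContDiff ℝ 1 (α k)) ∧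
      (∀ k, HasCompactSupport (α k)) ∧ (∀ k z, z ∉ tsupport χ → α k z = 0) ∧
      (∀ k l z, dbar k (α l) z = dbar l (α k) z) ∧
      (∀ z ∈ Ω, DifferentiableAt ℝ h z ∧ ∀ k, dbar k h z = α k z) ∧
      (∀ z ∈ Ω, z ∉ tsupport χ → h z = g z)

/-- THK: the open neighbourhoods of a preconnected set are preconnected.  Proof: a union of balls with
centres in `E` together with `E`; `Metric.thickening_eq_biUnion_ball`. -/
def THKStmt : Prop :=
  ∀ (n : ℕ) (E : Set (Cn n)) (ε : ℝ), 0 < ε → IsPreconnected E → IsPreconnected (thickening ε E)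

/-- EXT: extension of holomorphic functions (Ehrenpreis).  `F = g` near the boundary of `Ω`.  Proof:
CUT, ALF, DBR (with `i = 0`, `j = 1`) give `h`, `α`, `u`; `F = h - u` is holomorphic on `Ω` by CRH.
Let `ε > 0` be less than the distance of `tsupport χ` (compact) and `Ωᶜ` (closed, nonempty since `Ω`
is bounded).  `W = thickening ε Ωᶜ` is open, preconnected (THK) and disjoint from `tsupport χ`, `u` is
holomorphic on `W` (CRH) and zero where `‖z 1‖ > R`; `W ⊇ Ωᶜ` contains all points of large norm; by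
IDN `u = 0` on `W`.  (`infDist z Ωᶜ < ε` means `z ∈ W`: `mem_thickening_iff_infDist_lt`.)  On `W ∩ Ω`
we have `z ∉ N ⊇ L` and `F z = h z = g z`.  Needs CUT ALF DBR CRH THK IDN. -/
def EXTStmt : Prop :=
  ∀ n : ℕ, 2 ≤ n → ∀ (Ω L : Set (Cn n)) (g : Cn n → ℂ), IsOpen Ω → Bornology.IsBounded Ω →
    IsPreconnected Ωᶜ → IsCompact L → L ⊆ Ω → DifferentiableOn ℂ g (Ω \ L) →
    ∃ (F : Cn n → ℂ) (ε : ℝ), 0 < ε ∧ DifferentiableOn ℂ F Ω ∧
      ∀ z ∈ Ω, infDist z Ωᶜ < ε → z ∉ L ∧ F z = g z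

/-- CLM: collar lemma.  Proof: EXT for `g = 1` on `A`, `0` elsewhere (locally constant on `Ω \ L`);
`F * (F - 1)` vanishes on the open set `{z ∈ Ω | infDist z Ωᶜ < ε}`; if this set is empty there is
nothing to prove, otherwise `F * (F - 1) = 0` on `Ω` (IDN), so the continuous function `F` is constant
on the preconnected set `Ω`.  Needs EXT IDN. -/
def CLMStmt : Prop :=
  ∀ n : ℕ, 2 ≤ n → ∀ Ω L A B : Set (Cn n), IsOpen Ω → Bornology.IsBounded Ω →
    IsPreconnected Ω → IsPreconnected Ωᶜ → IsCompact L → L ⊆ Ω → IsOpen A → IsOpen B →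
    Disjoint A B → Ω \ L ⊆ A ∪ B →
    ∃ ε > 0, (∀ z ∈ Ω, infDist z Ωᶜ < ε → z ∈ A) ∨ (∀ z ∈ Ω, infDist z Ωᶜ < ε → z ∈ B)

/-! ## Part 4: domains with a hole -/

/-- HFC: elementary facts on `Ω = D ∪ K`.  Proof: `Ωᶜ = E`; `E` is not bounded, since `D ∪ K` is
bounded and `n ≥ 1`; connectedness: if `Ω` is the disjoint union of two open sets, `D` lies in one of
them, the other one is an open subset of `K`, it is also closed (its closure lies in `K ⊆ Ω`), so it
is empty.  The last statement: points of `D` near `E` (otherwise `thickening δ E = E` is open and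
closed, with `δ` at most the distance of `K` and `E`). -/
def HFCStmt : Prop :=
  ∀ n : ℕ, 1 ≤ n → ∀ D E K : Set (Cn n), Hole D E K →
    IsOpen (D ∪ K) ∧ Bornology.IsBounded (D ∪ K) ∧ IsConnected (D ∪ K) ∧ (D ∪ K)ᶜ = E ∧
      ¬ Bornology.IsBounded E ∧ E.Nonempty ∧ ∀ δ > 0, ∃ w ∈ D, infDist w E < δ

/-- EXF: extension of `f` over the hole.  Proof: EXT for the coordinates `z ↦ f z i`, with `Ω = D ∪ K`,
`L = K`, `Ω \ L = D`; near `E` the extension agrees with `f` (HFC gives points of `D` with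
`infDist w E < ε`, these form a nonempty open subset of `D`), so on `D` by IDN.
Needs EXT IDN HFC. -/
def EXFStmt : Prop :=
  ∀ n : ℕ, 2 ≤ n → ∀ (D E K : Set (Cn n)) (f : Cn n → Cn n), Hole D E K →
    DifferentiableOn ℂ f D →
    ∃ F : Cn n → Cn n, DifferentiableOn ℂ F (D ∪ K) ∧ EqOn F f D

/-- SRJ: `f (D) = D`.  Proof: OPN with `U = S = D`, NDG. -/
def SRJStmt : Prop :=
  ∀ (n : ℕ) (D : Set (Cn n)) (f : Cn n → Cn n), IsOpen D → IsConnected D → ProperSelf D f →
    D ⊆ f '' D

/-- NDE: the extension is not degenerate.  Proof: if `jac F` vanishes on a nonempty open subset of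
`D ∪ K`, it vanishes on `D ∪ K` (DET, IDN, HFC), so on `D`, where `jac F = jac f`; NDG. -/
def NDEStmt : Prop :=
  ∀ n : ℕ, 1 ≤ n → ∀ (D E K : Set (Cn n)) (f F : Cn n → Cn n), Hole D E K → ProperSelf D f →
    DifferentiableOn ℂ F (D ∪ K) → EqOn F f D → NonDeg F (D ∪ K)

/-- RNG: the extension maps `Ω = D ∪ K` to itself.  Proof: let `L` be a compact neighbourhood of `K` in
`Ω` (`exists_compact_between`), `U = interior L`.  For `w ∈ E` the compact set `F '' (L \ U)` lies in
`D`, so it has positive distance to `w`, and for small `ρ` the set `{z ∈ U | ‖F z - w‖ ≤ ρ}` =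
`{z ∈ L | ‖F z - w‖ ≤ ρ}` is compact.  By OPN (`S = E`) either `E ⊆ F '' U`, impossible as `E` is not
bounded and `F '' L` is compact, or `F '' U` does not meet `E = Ωᶜ`.  On `D` we have `F = f`.
Needs OPN HFC NDE (NonDeg on `U` follows from NonDeg on `Ω`). -/
def RNGStmt : Prop :=
  ∀ n : ℕ, 1 ≤ n → ∀ (D E K : Set (Cn n)) (f F : Cn n → Cn n), Hole D E K → ProperSelf D f →
    DifferentiableOn ℂ F (D ∪ K) → EqOn F f D → MapsTo F (D ∪ K) (D ∪ K)

/-- PRP: the extension is proper.  Proof: `Ω = D ∪ K`.  For `s > 0` at most a third of the distance of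
`K` and `E` let `A_s`, `B_s` be the `s`-thickenings of `E` and `K`; they are disjoint, and
`Q_s = (A_s ∪ B_s)ᶜ ⊆ D` is compact, `L_s = K ∪ (D ∩ f ⁻¹' Q_s)` is a compact subset of `Ω`, and
`F z ∈ A_s ∪ B_s` for `z ∈ Ω \ L_s`.  CLM for `L = L_s` (s fixed), `A = {z ∈ Ω | F z ∈ A_s}`,
`B = {z ∈ Ω | F z ∈ B_s}`: near `E` all `F z` are in `A_s` or all in `B_s`.
Second case: `L' = {z ∈ Ω | infDist z E ≥ ε}` is compact, `F '' L'` is a compact subset of `Ω`; take
`w ∈ D` with `infDist w E` smaller than `s` and than the distance of `F '' L'` to `E` (HFC);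
`w = f z` with `z ∈ D`; `z ∈ L'` is impossible, otherwise `w ∈ B_s`, but `w ∈ A_s`.
First case: let `w ∈ Ω`, `ρ = infDist w E / 2`, and `s' ≤ s`, `s' < ρ`; for `z ∈ Ω` with `infDist z E`
small, `z ∉ L_{s'}` and `F z ∈ A_s`, so `F z ∈ A_{s'}`, so `‖F z - w‖ > ρ`.  So the set below is a
closed subset of a compact subset `{z | infDist z E ≥ ε'}` of `Ω`.  Needs CLM HFC. -/
def PRPStmt : Prop :=
  ∀ n : ℕ, 2 ≤ n → ∀ (D E K : Set (Cn n)) (f F : Cn n → Cn n), Hole D E K → ProperSelf D f →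
    DifferentiableOn ℂ F (D ∪ K) → EqOn F f D → MapsTo F (D ∪ K) (D ∪ K) → D ⊆ f '' D →
    ∀ w ∈ D ∪ K, ∃ ρ > 0, IsCompact {z | z ∈ D ∪ K ∧ ‖F z - w‖ ≤ ρ}

/-- IT1: limits of bounded holomorphic maps along an ultrafilter.  Proof: bounded sequences of `Cn n`
converge along ultrafilters (`Ultrafilter`, compact balls); LIM. -/
def IT1Stmt : Prop :=
  ∀ (n : ℕ) (Ω : Set (Cn n)) (l : Ultrafilter ℕ) (f : ℕ → Cn n → Cn n), IsOpen Ω →
    Bornology.IsBounded Ω → (∀ k, DifferentiableOn ℂ (f k) Ω) →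
    (∀ k, MapsTo (f k) Ω (closure Ω)) → ∃ g : Cn n → Cn n, DifferentiableOn ℂ g Ω ∧ MapsTo g Ω (closure Ω) ∧
      TendstoLocallyUniformlyOn f g l Ω

/-- ITR: iteration.  Proof: let `l` be an ultrafilter on `ℕ` finer than `atTop`
(`Filter.hyperfilter ℕ`).  By IT1 there are limits `G` of `F^[k]` and, for every `k`, `H_k` of
`F^[m - k]` (`m → l`), and `P_k` of `F^[m - k - 1]`, and again by IT1 limits `H` of `H_k` and `P` of `P_k` along
`l`; all these maps are holomorphic on `Ω` with values in `closure Ω`, the convergence is locally uniform.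
(a) `H_k (F^[k] z) = G z` for `z ∈ Ω`, since `F^[m - k] (F^[k] z) = F^[m] z` for `m ≥ k`.
(b) If `z ∈ Ω` and `G z ∈ Ω` then `F^[k] z → G z` and, by local uniform convergence of `H_k` to `H`
near `G z` (`TendstoLocallyUniformlyOn.tendsto_comp`), `H_k (F^[k] z) → H (G z)`; so
`H (G z) = G z`.  (c) `K ⊆ G '' K`: for `w ∈ K` and all `k` there is `z_k ∈ K` with `F^[k] z_k = w`
(surjectivity and `F z ∈ K → z ∈ K`); `z_k → z ∈ K` along `l`, and `G z = w` by local uniform
convergence.  So `H = id` on `K`, so on `Ω` (IDN for the coordinates).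
(d) `P_k (F z) = H_k z` for `z ∈ Ω`, so `P (F z) = H z = z`.  Take `g = P`.  Needs LIM IT1 IDN. -/
def ITRStmt : Prop :=
  ∀ (n : ℕ) (Ω K : Set (Cn n)) (F : Cn n → Cn n), IsOpen Ω → IsConnected Ω →
    Bornology.IsBounded Ω → MapsTo F Ω Ω → DifferentiableOn ℂ F Ω → Ω ⊆ F '' Ω →
    IsCompact K → K ⊆ Ω → (interior K).Nonempty → (∀ z ∈ Ω, F z ∈ K → z ∈ K) →
    ∃ g : Cn n → Cn n, DifferentiableOn ℂ g Ω ∧ ∀ z ∈ Ω, g (F z) = z

/-- MAI: the main theorem.  Needs EXF RNG NDE SRJ PRP OPN HFC ITR. -/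
def MAIStmt : Prop :=
  ∀ n : ℕ, 2 ≤ n → ∀ (D E K : Set (Cn n)) (f : Cn n → Cn n), Hole D E K → ProperSelf D f →
    ∃ g : Cn n → Cn n, MapsTo g D D ∧ DifferentiableOn ℂ g D ∧ (∀ z ∈ D, g (f z) = z) ∧
      ∀ z ∈ D, f (g z) = z

/-! ## Part 5: smooth domains -/

/-- CBC: the complement of a ball is connected.  Proof: radial paths to a sphere of radius `R' > R`,
which is connected since the real dimension is at least two (`isConnected_sphere`,
`isPathConnected_sphere`); or `isPreconnected_compl...`. -/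
def CBCStmt : Prop :=
  ∀ n : ℕ, 1 ≤ n → ∀ R : ℝ, IsPreconnected {z : Cn n | R < ‖z‖}

/-- LCB: local connectedness of the complement of a smooth domain at a boundary point.  Proof: let
`fderiv ρ x v = 1`.  There is `r > 0` with `fderiv ρ y v > 1/2` for `‖y - x‖ < r`.  Let `s > 0` with
`s ‖v‖ < r / 2`, and `δ ≤ r / 2` with `|ρ y| < s / 2` for `‖y - x‖ < δ`.  If `‖y - x‖ < δ` and
`0 ≤ ρ y` the segment from `y` to `y + s v` lies in `{0 ≤ ρ}`, and `ρ (y + s v) > 0` for all
`‖y - x‖ < δ`, so the ball of radius `δ` at `x + s v` lies in `{0 ≤ ρ}`. -/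
def LCBStmt : Prop :=
  ∀ (n : ℕ) (ρ : Cn n → ℝ) (x : Cn n), ContDiff ℝ 1 ρ → ρ x = 0 → fderiv ℝ ρ x ≠ 0 →
    ∃ δ > 0, ∃ C : Set (Cn n), IsPreconnected C ∧ C ⊆ {z | 0 ≤ ρ z} ∧
      ∀ y, ‖y - x‖ < δ → 0 ≤ ρ y → y ∈ C

/-- IPB: points outside near a boundary point.  Proof: move from `x` in a direction in which the
derivative is positive. -/
def IPBStmt : Prop :=
  ∀ (n : ℕ) (ρ : Cn n → ℝ) (x : Cn n), ContDiff ℝ 1 ρ → ρ x = 0 → fderiv ℝ ρ x ≠ 0 →
    ∀ δ > 0, ∃ y, ‖y - x‖ < δ ∧ 0 < ρ y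

/-- SMT: smooth domains with disconnected complement have a hole.  Proof: `X = {0 ≤ ρ}` is the
complement of `D`.  Let `D` lie in the ball of radius `R`, `x₀` a point with `‖x₀‖ > R`,
`E = connectedComponentIn X x₀`; it is closed (`X` is closed), contains `{z | R < ‖z‖}` (CBC) and is
open in `X`: at `x ∈ E` with `ρ x > 0` a ball lies in `X`, at `ρ x = 0` use LCB
(`IsPreconnected.subset_connectedComponentIn`).  `K = X \ E` is bounded and closed, not empty since
`X` is not preconnected; if `k ∈ K` then `ρ k > 0`, or by IPB and since `E` is closed there is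
`k' ∈ K` with `ρ k' > 0`; a small ball at such a point lies in `X` and does not meet the closed set
`E`, so it lies in `K`.  Needs CBC LCB IPB. -/
def SMTStmt : Prop :=
  ∀ n : ℕ, 1 ≤ n → ∀ ρ : Cn n → ℝ, ContDiff ℝ 1 ρ → (∀ z, ρ z = 0 → fderiv ℝ ρ z ≠ 0) →
    Bornology.IsBounded {z | ρ z < 0} → IsConnected {z | ρ z < 0} →
    ¬ IsPreconnected {z | 0 ≤ ρ z} → ∃ E K : Set (Cn n), Hole {z | ρ z < 0} E K

end Pool.PHS
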